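import Pool.Agent.TH192.MU.TwZ

set_option autoImplicit false

/-! # The twisted topological zeta functions of products of powers of forms over determinantal ideals

Let `x` be the generic matrix of one of the three spaces `S` of matrices: all `m × n` matrices, the
symmetric `n × n` matrices, the skew symmetric `n × n` matrices (`MSpace`). For `t < T`, `T > 0`, let
`F_t = ∑_j y_{t,j} M_j(x)`, where the `M_j` are the `p t`-minors of `x` (the Pfaffians of size
`2 (p t)` in the skew symmetric case), `p t < min (m, n)`, `p t < n`, or `2 (p t) + 1 < n`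
(`Small`), and the `y_{t,j}` are further variables, separate for each `t`. Let
`f = ∏ t, F_t ^ a t`, `a t > 0` (`detForm`, with integral coefficients).

The twisted topological zeta function `Z^(e)` is taken from the spaces of jets, as Denef and Loeser do
in their paper on motivic Igusa zeta functions (1998). For a character `α` of order `e` of the group of
the roots of unity they form the series of the `α`-parts of the classes of the covers
`U_{d,k} = {(φ, w) | f(φ) = w ^ k t ^ d mod t ^ (d + 1), w ≠ 0}` (`JetC`), `e ∣ k`, of the sets of the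
`d`-jets on which `f` has the order `d`; its Euler characteristic at `T = 𝕃 ^ (-s)` is `Z^(e)(s)`. The
class of `U_{d,k}` is the sum of its parts over all characters with `α ^ k = 1`, so the topological
zeta function `Y_k` of the series `∑_{d ≥ 1} [U_{d,k}] 𝕃 ^ (-n d) T ^ d` (`zetaC`) is
`∑_{e ∣ k} φ(e) Z^(e)`. In terms of a resolution: the cover over the stratum `E_I°` contributes
`gcd(k, m_I) χ(E_I°) ∏_{i ∈ I} 1 / (N_i s + ν_i)`, and `gcd(k, m_I) = ∑_{e ∣ k, e ∣ m_I} φ(e)`. So
`Z^(e)` is defined by `φ(e) Z^(e) = ∑_{i k = e} μ(i) Y_k` (`IsTwistedTop`). The topological zeta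
function of a series is its value at `T = 𝕃 ^ (-s)` under a homomorphism `E` from the Grothendieck ring
`𝓜` to a domain `R` with `E(𝕃) ≠ 1`, such as the Hodge-Deligne polynomial, and then a homomorphism
`ε` from `R` to `ℂ` with `ε(E(𝕃)) = 1`, such as `u, v ↦ 1` (`IsTopZeta`).

No resolution is used. Let `g` be the greatest common divisor of the `a t`. Then `f = F ^ g`, and `F` is
homogeneous of degree one for a one-parameter group which scales the `y_{t,j}`, so
`[U_{d,k}] = gcd(k, g) [U_{d,1}]`. -/

namespace Pool.Agent.Results.MP_b22d1f_ag.DeterminantalTwisted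

open MvPolynomial Pool.Agent.W428.MOT Pool.Agent.H628R4.TP Pool.Agent.TH192.DT
  Pool.Agent.TH192.MT Pool.Agent.TH192.MU

/-- **The twisted monodromy conjecture holds for `f = ∏ t, F_t ^ a t`.** For every `e ≥ 1` there is
exactly one twisted topological zeta function `Z` of `f`. If `e` divides all the `a t`, it is the
topological zeta function of `∑_{d ≥ 1} [U_{d,1}] 𝕃 ^ (-n d) T ^ d`, that is the one for `e = 1`, and
otherwise it is `0`. Every pole `s₀` is one of the `-ν_d / N_d` and `-1 / a t`, `e` divides `N_d`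
(`a t`), and `s₀` is a root of every polynomial `b` with `b(s) f ^ s = P(s) f ^ (s + 1)`, in particular
of the Bernstein-Sato polynomial of `f`. By the theorem of Malgrange and Kashiwara, `exp(2 π i s₀)`
is then an eigenvalue of the monodromy of `f` at some point. -/
theorem result (S : MSpace) (T : ℕ) (hT : 0 < T) (p a : Fin T → ℕ) (hp : ∀ t, S.Small (p t))
    (ha : ∀ t, 0 < a t) (e : ℕ) (he : 0 < e) (R : Type) [CommRing R] [IsDomain R]
    (E : MK ℂ →+* R) (ε : R →+* ℂ)
    (hε : ε (E ((Lu ℂ : (MK ℂ)ˣ) : MK ℂ)) = 1) (hE : E ((Lu ℂ : (MK ℂ)ˣ) : MK ℂ) ≠ 1) :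
    ∃ Z : RatFunc ℂ, IsTwistedTop E ε (map (Int.castRingHom ℂ) (detForm S p a)) e Z ∧
      (∀ Z', IsTwistedTop E ε (map (Int.castRingHom ℂ) (detForm S p a)) e Z' → Z' = Z) ∧
      ((∀ t, e ∣ a t) → IsTopZeta E ε (zetaC (map (Int.castRingHom ℂ) (detForm S p a)) 1) Z) ∧
      ((∃ t, ¬ e ∣ a t) → Z = 0) ∧
      ∀ s₀ : ℂ, Z.denom.eval s₀ = 0 →
        (∃ q ∈ formPairs S p a, (e : ℤ) ∣ q.2 ∧ s₀ = (q.1 : ℂ) / q.2) ∧
        ∀ b : Polynomial ℂ, IsBFunction (map (Int.castRingHom ℂ) (detForm S p a)) b →
          b.eval s₀ = 0 := by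
  obtain ⟨Z, h1, h2, h3, h4, h5⟩ := twisted_main S T hT p a hp ha e he E ε hε hE
  refine ⟨Z, h1, h2, h3, h4, fun s₀ hs => ?_⟩
  obtain ⟨h6, q, hq, rfl⟩ := h5 s₀ hs
  exact ⟨⟨q, hq, dvd_pairs S p a e h6 q hq, rfl⟩, (form_roots S T p a hp ha q hq).2.2.1⟩

end Pool.Agent.Results.MP_b22d1f_ag.DeterminantalTwisted
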